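import Pool.Agent.Helper35.PQF.St

/-!
# Module DP4 of the project PQF: displacement of parabolic matrices.
-/

open Filter Topology Matrix Set
open scoped ENNReal ComplexOrder

namespace Helper6.PM

open Pool.Agent.Helper35.PM

lemma cayley (A : SL) :
    (A : Mat) * (A : Mat) - (A : Mat).trace • (A : Mat) + 1 = 0 := by
  have hd : (A : Mat) 0 0 * (A : Mat) 1 1 - (A : Mat) 0 1 * (A : Mat) 1 0 = 1 := by
    have h := A.det_coe
    rwa [Matrix.det_fin_two] at h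
  ext i j
  fin_cases i <;> fin_cases j <;>
    simp only [Matrix.add_apply, Matrix.sub_apply, Matrix.smul_apply, Matrix.mul_apply,
      Fin.sum_univ_two, Matrix.trace_fin_two, smul_eq_mul, Matrix.one_apply, Matrix.zero_apply,
      Fin.zero_eta, Fin.mk_one, Fin.isValue, if_true, one_ne_zero, zero_ne_one, if_false]
  · linear_combination -hd
  · ring
  · ring
  · linear_combination -hd

lemma hs_nonneg (A : Mat) : 0 ≤ hs A := by
  unfold hs
  positivity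

lemma hs_smul (c : ℂ) (A : Mat) : hs (c • A) = ‖c‖ ^ 2 * hs A := by
  unfold hs
  simp only [Fin.sum_univ_two, Matrix.smul_apply, smul_eq_mul, norm_mul]
  ring

lemma hs_add_le (A B : Mat) : hs (A + B) ≤ 2 * (hs A + hs B) := by
  unfold hs
  have key : ∀ x y : ℂ, ‖x + y‖ ^ 2 ≤ 2 * (‖x‖ ^ 2 + ‖y‖ ^ 2) := by
    intro x y
    have h1 := norm_add_le x y
    have h2 : ‖x + y‖ ^ 2 ≤ (‖x‖ + ‖y‖) ^ 2 := by gcongr
    nlinarith [sq_nonneg (‖x‖ - ‖y‖)]
  simp only [Fin.sum_univ_two, Matrix.add_apply]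
  linarith [key (A 0 0) (B 0 0), key (A 0 1) (B 0 1), key (A 1 0) (B 1 0), key (A 1 1) (B 1 1)]

open scoped MatrixOrder Matrix.Norms.L2Operator in
lemma psd_factor {M : Mat} (hM : M.PosSemidef) : ∃ R : Mat, M = Rᴴ * R := by
  obtain ⟨R, hR⟩ := CStarAlgebra.nonneg_iff_eq_star_mul_self.mp hM.nonneg
  exact ⟨R, hR⟩

/-- Trace of a product of positive semidefinite matrices. -/
lemma trace_mul_nonneg {M N : Mat} (hM : M.PosSemidef) (hN : N.PosSemidef) :
    0 ≤ ((M * N).trace).re := by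
  obtain ⟨R, hR⟩ := psd_factor hM
  have h1 : (M * N).trace = (R * N * Rᴴ).trace := by
    rw [hR, Matrix.trace_mul_comm (R * N) Rᴴ, Matrix.mul_assoc]
  have h2 : (R * N * Rᴴ).PosSemidef := hN.mul_mul_conjTranspose_same R
  rw [h1]
  exact (Complex.le_def.1 h2.trace_nonneg).1

/-- The bounded case. -/
lemma bounded_case (A : SL) (μ : ℂ) (hμ : μ ^ 2 - (A : Mat).trace * μ + 1 = 0)
    (hn : ‖μ‖ = 1) (h1 : μ ^ 2 ≠ 1) :
    ∃ M : ℝ, ∀ n : ℕ, hs ((A ^ n : SL) : Mat) ≤ M := by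
  have hμ0 : μ ≠ 0 := by
    intro h
    rw [h, norm_zero] at hn
    exact zero_ne_one hn
  have hd : μ - μ⁻¹ ≠ 0 := by
    intro h
    apply h1
    have : μ = μ⁻¹ := sub_eq_zero.1 h
    calc μ ^ 2 = μ * μ := sq μ
      _ = μ * μ⁻¹ := by rw [← this]
      _ = 1 := mul_inv_cancel₀ hμ0
  have htr : (A : Mat).trace = μ + μ⁻¹ := by
    have h2 : (A : Mat).trace * μ = μ ^ 2 + 1 := by linear_combination -hμ
    field_simp
    linear_combination h2
  have hc := cayley A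
  rw [htr] at hc
  set X : Mat := (A : Mat) with hX
  -- `A E = μ E`, `A F = μ⁻¹ F`
  have hE : X * (X - μ⁻¹ • (1 : Mat)) = μ • (X - μ⁻¹ • (1 : Mat)) := by
    rw [Matrix.mul_sub, Matrix.mul_smul, Matrix.mul_one, smul_sub, smul_smul,
      mul_inv_cancel₀ hμ0, one_smul]
    have h3 : X * X = (μ + μ⁻¹) • X - 1 := by
      have := hc
      rw [← sub_eq_zero]
      rw [← this]
      abel
    rw [h3, add_smul]
    abel
  have hF : X * (X - μ • (1 : Mat)) = μ⁻¹ • (X - μ • (1 : Mat)) := by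
    rw [Matrix.mul_sub, Matrix.mul_smul, Matrix.mul_one, smul_sub, smul_smul,
      inv_mul_cancel₀ hμ0, one_smul]
    have h3 : X * X = (μ + μ⁻¹) • X - 1 := by
      have := hc
      rw [← sub_eq_zero]
      rw [← this]
      abel
    rw [h3, add_smul]
    abel
  have hpE : ∀ n : ℕ, X ^ n * (X - μ⁻¹ • (1 : Mat)) = μ ^ n • (X - μ⁻¹ • (1 : Mat)) := by
    intro n
    induction n with
    | zero => simp
    | succ n ih =>
      rw [pow_succ, Matrix.mul_assoc, hE, Matrix.mul_smul, ih, smul_smul, ← pow_succ']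
  have hpF : ∀ n : ℕ, X ^ n * (X - μ • (1 : Mat)) = μ⁻¹ ^ n • (X - μ • (1 : Mat)) := by
    intro n
    induction n with
    | zero => simp
    | succ n ih =>
      rw [pow_succ, Matrix.mul_assoc, hF, Matrix.mul_smul, ih, smul_smul, ← pow_succ']
  have hpow : ∀ n : ℕ, (μ - μ⁻¹) • X ^ n =
      μ ^ n • (X - μ⁻¹ • (1 : Mat)) + (-(μ⁻¹ ^ n)) • (X - μ • (1 : Mat)) := by
    intro n
    rw [← hpE n, neg_smul, ← hpF n, ← sub_eq_add_neg, ← Matrix.mul_sub]
    have h4 : X - μ⁻¹ • (1 : Mat) - (X - μ • (1 : Mat)) = (μ - μ⁻¹) • (1 : Mat) := by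
      rw [sub_smul]; abel
    rw [h4, Matrix.mul_smul, Matrix.mul_one]
  refine ⟨(2 * (hs (X - μ⁻¹ • (1 : Mat)) + hs (X - μ • (1 : Mat)))) / ‖μ - μ⁻¹‖ ^ 2, fun n => ?_⟩
  have hpos : 0 < ‖μ - μ⁻¹‖ ^ 2 := by
    have := norm_pos_iff.2 hd
    positivity
  rw [le_div_iff₀ hpos]
  have h5 : ((A ^ n : SL) : Mat) = X ^ n := by
    rw [hX]; exact Matrix.SpecialLinearGroup.coe_pow A n
  rw [h5, mul_comm, ← hs_smul, hpow n]
  refine (hs_add_le _ _).trans ?_
  rw [hs_smul, hs_smul, norm_neg, norm_pow, norm_pow, norm_inv, hn]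
  simp

/-- The parabolic case. -/
lemma parabolic_case (dp1 : St_DP1) (A : SL) (μ : ℂ)
    (hμ : μ ^ 2 - (A : Mat).trace * μ + 1 = 0)
    (h1 : μ ^ 2 = 1) (P : Mat) (hP : P.PosDef) (ε : ℝ) (hε : 0 < ε) :
    ∃ n : ℕ,
      disp (A : Mat) (((A ^ n : SL) : Mat) * P * ((A ^ n : SL) : Mat)ᴴ +
        (((A ^ n)⁻¹ : SL) : Mat) * P * (((A ^ n)⁻¹ : SL) : Mat)ᴴ) ≤ 2 + ε := by
  have hstar : star μ = μ := by
    rcases sq_eq_one_iff.1 h1 with h | h
    · rw [h]; simp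
    · rw [h]; simp
  have hμμ : μ * μ = 1 := by rw [← sq]; exact h1
  have hμn : ∀ n : ℕ, μ ^ n * μ ^ n = 1 := by
    intro n; rw [← mul_pow, hμμ, one_pow]
  have htr : (A : Mat).trace = 2 * μ := by
    linear_combination (-μ) * hμ + (μ - (A : Mat).trace) * h1
  obtain ⟨N, hN⟩ : ∃ N : Mat, N = (A : Mat) - μ • (1 : Mat) := ⟨_, rfl⟩
  have hA : (A : Mat) = μ • (1 : Mat) + N := by rw [hN]; abel
  have hNN : N * N = 0 := by
    have hc := cayley A
    rw [htr, hA] at hc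
    have e1 : (μ • (1 : Mat) + N) * (μ • (1 : Mat) + N) =
        (μ * μ) • (1 : Mat) + (2 * μ) • N + N * N := by
      simp only [Matrix.add_mul, Matrix.mul_add, Matrix.smul_mul, Matrix.mul_smul,
        Matrix.one_mul, Matrix.mul_one]
      module
    rw [e1, hμμ, one_smul, smul_add, smul_smul] at hc
    have e2 : (2 * μ * μ) • (1 : Mat) = 1 + 1 := by
      rw [mul_assoc, hμμ, mul_one, two_smul]
    rw [e2] at hc
    rw [← hc]
    abel
  have hNtr : N.trace = 0 := by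
    rw [hN, Matrix.trace_sub, htr, Matrix.trace_smul, Matrix.trace_one]
    simp
    ring
  have hpow : ∀ n : ℕ, ((A ^ n : SL) : Mat) = μ ^ n • ((1 : Mat) + ((n : ℂ) * μ) • N) := by
    intro n
    rw [Matrix.SpecialLinearGroup.coe_pow]
    induction n with
    | zero => simp
    | succ n ih =>
      rw [pow_succ, ih, hA]
      simp only [Matrix.add_mul, Matrix.mul_add, Matrix.smul_mul, Matrix.mul_smul,
        Matrix.one_mul, Matrix.mul_one, hNN, smul_zero, add_zero]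
      match_scalars
      · ring
      · linear_combination (-(μ ^ n)) * hμμ
  have hinv : ∀ n : ℕ,
      (((A ^ n)⁻¹ : SL) : Mat) = μ ^ n • ((1 : Mat) - ((n : ℂ) * μ) • N) := by
    intro n
    have e1 : ((A ^ n : SL) : Mat) * (μ ^ n • ((1 : Mat) - ((n : ℂ) * μ) • N)) = 1 := by
      rw [hpow n]
      simp only [Matrix.add_mul, Matrix.mul_sub, Matrix.smul_mul, Matrix.mul_smul,
        Matrix.one_mul, Matrix.mul_one, hNN, smul_zero]
      match_scalars
      · linear_combination hμn n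
      · ring
    have e2 : (((A ^ n)⁻¹ : SL) : Mat) * ((A ^ n : SL) : Mat) = 1 := by
      rw [← Matrix.SpecialLinearGroup.coe_mul, inv_mul_cancel, Matrix.SpecialLinearGroup.coe_one]
    calc (((A ^ n)⁻¹ : SL) : Mat)
        = (((A ^ n)⁻¹ : SL) : Mat) *
          (((A ^ n : SL) : Mat) * (μ ^ n • ((1 : Mat) - ((n : ℂ) * μ) • N))) := by
          rw [e1, Matrix.mul_one]
      _ = _ := by rw [← Matrix.mul_assoc, e2, Matrix.one_mul]
  obtain ⟨n, hn⟩ := exists_nat_gt (2 / ε)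
  have hn0 : (0 : ℝ) < n := lt_trans (by positivity) hn
  have hn1 : (1 : ℝ) ≤ n := by
    have : 0 < n := by exact_mod_cast hn0
    exact_mod_cast this
  have hne : 2 < ε * n := by
    rw [div_lt_iff₀ hε] at hn
    linarith
  refine ⟨n, ?_⟩
  obtain ⟨R, hR⟩ : ∃ R : Mat, R = N * P * Nᴴ := ⟨_, rfl⟩
  have hNR : N * R = 0 := by
    rw [hR, Matrix.mul_assoc, ← Matrix.mul_assoc, hNN, Matrix.zero_mul]
  have hRN : R * Nᴴ = 0 := by
    rw [hR, Matrix.mul_assoc, ← Matrix.conjTranspose_mul, hNN, Matrix.conjTranspose_zero,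
      Matrix.mul_zero]
  obtain ⟨Q, hQ⟩ : ∃ Q : Mat, Q = ((A ^ n : SL) : Mat) * P * ((A ^ n : SL) : Mat)ᴴ +
        (((A ^ n)⁻¹ : SL) : Mat) * P * (((A ^ n)⁻¹ : SL) : Mat)ᴴ := ⟨_, rfl⟩
  have hQpos : Q.PosDef := by
    rw [hQ]
    exact (dp1.2.2.1 _ P hP).add (dp1.2.2.1 _ P hP)
  rw [← hQ]
  have hQe : Q = (2 : ℂ) • P + ((n : ℂ) ^ 2) • ((2 : ℂ) • R) := by
    rw [hQ, hinv, hpow, hR]
    have hs : star (μ ^ n) = μ ^ n := by rw [star_pow, hstar]
    have hc : star ((n : ℂ) * μ) = (n : ℂ) * μ := by rw [star_mul', hstar]; simp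
    rw [Matrix.conjTranspose_smul, Matrix.conjTranspose_smul, Matrix.conjTranspose_add,
      Matrix.conjTranspose_sub, Matrix.conjTranspose_smul, Matrix.conjTranspose_one, hs, hc]
    simp only [Matrix.smul_mul, Matrix.mul_smul, Matrix.add_mul, Matrix.mul_add, Matrix.sub_mul,
      Matrix.mul_sub, Matrix.one_mul, Matrix.mul_one]
    match_scalars
    · linear_combination 2 * hμn n
    · ring
    · ring
    · linear_combination 2 * (n : ℂ) ^ 2 * hμn n + 2 * (n : ℂ) ^ 2 * (μ ^ n * μ ^ n) * hμμ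
  have hdet : IsUnit Q.det := (Matrix.isUnit_iff_isUnit_det _).1 hQpos.isUnit
  have hQi : Q⁻¹ * Q = 1 := Matrix.nonsing_inv_mul Q hdet
  have hQi' : Q * Q⁻¹ = 1 := Matrix.mul_nonsing_inv Q hdet
  have hNQN : N * Q * Nᴴ = (2 : ℂ) • R := by
    rw [hQe, Matrix.mul_add, Matrix.mul_smul, Matrix.mul_smul, Matrix.mul_smul, hNR, smul_zero,
      smul_zero, add_zero, Matrix.smul_mul, ← hR]
  have hexp : Q⁻¹ * (A : Mat) * Q * (A : Mat)ᴴ =
      Q⁻¹ * Q + μ • (Q⁻¹ * (N * Q)) + μ • (Q⁻¹ * Q * Nᴴ) + Q⁻¹ * (N * Q * Nᴴ) := by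
    rw [hA, Matrix.conjTranspose_add, Matrix.conjTranspose_smul, Matrix.conjTranspose_one, hstar]
    simp only [Matrix.smul_mul, Matrix.mul_smul, Matrix.add_mul, Matrix.mul_add,
      Matrix.mul_one, Matrix.mul_assoc]
    match_scalars
    · linear_combination hμμ
    · ring
    · ring
    · ring
  have htr1 : (Q⁻¹ * (N * Q)).trace = 0 := by
    rw [Matrix.trace_mul_comm, Matrix.mul_assoc, hQi', Matrix.mul_one, hNtr]
  have htr2 : (Q⁻¹ * Q * Nᴴ).trace = 0 := by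
    rw [hQi, Matrix.one_mul, Matrix.trace_conjTranspose, hNtr, star_zero]
  have htr3 : (Q⁻¹ * Q).trace = 2 := by
    rw [hQi, Matrix.trace_one]
    simp
  have hdisp : disp (A : Mat) Q = 2 + ((Q⁻¹ * ((2 : ℂ) • R)).trace).re := by
    unfold disp
    rw [hexp, Matrix.trace_add, Matrix.trace_add, Matrix.trace_add, Matrix.trace_smul,
      Matrix.trace_smul, htr1, htr2, htr3, hNQN]
    simp
  have hsum : ((Q⁻¹ * ((2 : ℂ) • P)).trace).re +
      (n : ℝ) ^ 2 * ((Q⁻¹ * ((2 : ℂ) • R)).trace).re = 2 := by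
    have e1 : (Q⁻¹ * ((2 : ℂ) • P)).trace + (n : ℂ) ^ 2 * (Q⁻¹ * ((2 : ℂ) • R)).trace = 2 := by
      have e4 : Q⁻¹ * Q = Q⁻¹ * ((2 : ℂ) • P) + ((n : ℂ) ^ 2) • (Q⁻¹ * ((2 : ℂ) • R)) := by
        rw [← Matrix.mul_smul, ← Matrix.mul_add, ← hQe]
      rw [e4, Matrix.trace_add, Matrix.trace_smul ((n : ℂ) ^ 2), smul_eq_mul] at htr3
      exact htr3
    have e2 := congrArg Complex.re e1
    rw [Complex.add_re] at e2
    have e3 : ((n : ℂ) ^ 2 * (Q⁻¹ * ((2 : ℂ) • R)).trace).re =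
        (n : ℝ) ^ 2 * ((Q⁻¹ * ((2 : ℂ) • R)).trace).re := by
      have : ((n : ℂ) ^ 2) = (((n : ℝ) ^ 2 : ℝ) : ℂ) := by push_cast; rfl
      rw [this, Complex.re_ofReal_mul]
    rw [e3] at e2
    simpa using e2
  have hp : 0 ≤ ((Q⁻¹ * ((2 : ℂ) • P)).trace).re := by
    have h2 : ((2 : ℂ) • P).PosSemidef := by
      rw [two_smul]
      exact (hP.add hP).posSemidef
    exact trace_mul_nonneg hQpos.inv.posSemidef h2
  rw [hdisp]
  set s := ((Q⁻¹ * ((2 : ℂ) • R)).trace).re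
  by_contra hcon
  rw [not_le] at hcon
  have h3 : ε < s := by linarith
  have h4 : (n : ℝ) ^ 2 * ε ≤ (n : ℝ) ^ 2 * s := by gcongr
  have h5 : ε * n ≤ (n : ℝ) ^ 2 * ε := by nlinarith
  linarith

theorem dp4 (_hs1 : St_HS1) (hs2 : St_HS2) (dp1 : St_DP1) : St_DP4 := by
  intro A hA
  obtain ⟨μ, hμ, h1, h2⟩ := hs2.1 A
  rw [hA] at h2
  have hlog : Real.log ‖μ‖ = 0 := by linarith
  have hn : ‖μ‖ = 1 := by
    have h3 : Real.exp (Real.log ‖μ‖) = 1 := by rw [hlog, Real.exp_zero]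
    rwa [Real.exp_log (by linarith)] at h3
  by_cases h : μ ^ 2 = 1
  · exact Or.inr fun P hP ε hε => parabolic_case dp1 A μ hμ h P hP ε hε
  · exact Or.inl (bounded_case A μ hμ hn h)

end Helper6.PM
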